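import Pool.Agent.helper89.PU.Spec1

/-!
# Project PU (PV), row FGL: the group `G₁` for one representation
-/

set_option autoImplicit false

namespace Pool.Agent.PV

open Matrix Polynomial Pool.Agent.GO Pool.Agent.AR Pool.Agent.RG Pool.Agent.HZ Pool.Agent.DS
  Pool.Agent.AX Pool.Agent.UM Pool.Agent.PU MeasureTheory NumberField

theorem FGL_line {Ω : Type} [Field Ω] (v : Fin 2 → Ω) (c : Ω) (M : Matrix (Fin 2) (Fin 2) Ω)
    (hM : M = c • 1) : M *ᵥ v ∈ Submodule.span Ω {v} := by
  rw [hM, Matrix.smul_mulVec, Matrix.one_mulVec]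
  exact Submodule.smul_mem _ _ (Submodule.mem_span_singleton_self v)

theorem FGL (hFPW : FPW_stmt) (hSPF : SPF_stmt) : FGL_stmt := by
  intro p _ Γ F Ω _ _ _ _ _ _ _ _ _ _ _ R hc hint hSI
  obtain ⟨κ, hκ, hκ1, hspn⟩ := hSPF p R hSI
  haveI := ultra p F
  have h2 : (0 : ℝ) < ‖(2 : F)‖ := by
    have hcz : CharZero F := charZero_of_injective_algebraMap (algebraMap ℚ_[p] F).injective
    exact norm_pos_iff.2 two_ne_zero
  have hp0 : (0 : ℝ) < (p : ℝ) := by exact_mod_cast (Fact.out : p.Prime).pos
  have hpp : (0 : ℝ) < ((p : ℝ) ^ 2)⁻¹ := by positivity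
  have hpp1 : ((p : ℝ) ^ 2)⁻¹ ≤ 1 := by
    refine inv_le_one_of_one_le₀ ?_
    have : (1 : ℝ) ≤ p := by exact_mod_cast (Fact.out : p.Prime).one_lt.le
    nlinarith
  set δ : ℝ := min ((p : ℝ) ^ 2)⁻¹ (κ * ‖(2 : F)‖) with hδ
  have hδ0 : 0 < δ := lt_min hpp (mul_pos hκ h2)
  have hopen : IsOpen (GS R hint δ hδ0 : Set Γ) := GS_open R hc hint δ hδ0
  have hfin : (GS R hint δ hδ0).FiniteIndex := by
    haveI := Subgroup.quotient_finite_of_isOpen (GS R hint δ hδ0) hopen
    exact Subgroup.finiteIndex_of_finite_quotient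
  refine ⟨κ, δ, GS R hint δ hδ0, hδ0, (min_le_left _ _).trans hpp1, fun h => Iff.rfl, ?_, ?_⟩
  · exact
      { cont := hc
        int := hint
        closed := GS_closed R hc hint δ hδ0
        normal := GS_normal R hint δ hδ0
        pos := hκ
        le := hκ1
        small := fun h hh => lt_of_lt_of_le hh (min_le_right _ _)
        pow := fun h hh k => by
          rw [map_pow]
          exact hFPW p (R h) (hint h) (det_unit hint h)
            (le_trans (le_of_lt hh) (min_le_left _ _)) k
        spn := fun h _ => hspn h }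
  · by_contra hne
    push_neg at hne
    have hirr := hSI (GS R hint δ hδ0) hfin
    have hsc : ∀ h : GS R hint δ hδ0, ∃ c : Ω, bc (algebraMap F Ω) R h = c • 1 := by
      intro h
      obtain ⟨c, hc'⟩ := (nu_eq_zero_iff (R h)).1 (hne h h.2)
      refine ⟨algebraMap F Ω c, ?_⟩
      show ((algebraMap F Ω).mapMatrix (R h)) = _
      rw [hc']
      ext i j
      by_cases hij : i = j
      · subst hij
        simp
      · simp [Matrix.one_apply, hij]
    let v : Fin 2 → Ω := ![1, 0]
    have h1 := hirr.2 (Submodule.span Ω {v}) (fun g u hu => by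
      obtain ⟨c, hc'⟩ := hsc g
      rw [Submodule.mem_span_singleton] at hu
      obtain ⟨a, rfl⟩ := hu
      rw [Matrix.mulVec_smul]
      exact Submodule.smul_mem _ _ (FGL_line v c _ hc'))
    rcases h1 with h1 | h1
    · have hv : v ∈ Submodule.span Ω {v} := Submodule.mem_span_singleton_self v
      rw [h1, Submodule.mem_bot] at hv
      have := congrFun hv 0
      simp [v] at this
    · have hw : (![0, 1] : Fin 2 → Ω) ∈ Submodule.span Ω {v} := by rw [h1]; trivial
      rw [Submodule.mem_span_singleton] at hw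
      obtain ⟨a, ha⟩ := hw
      have := congrFun ha 1
      simp [v] at this

end Pool.Agent.PV
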